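import Pool.Agent.H3RD.W830.RD.Stm

set_option autoImplicit false

namespace Pool.Agent.W571.RD.Pind

open Finset
open scoped Classical
open Pool.Agent.W830.RD

noncomputable section

variable {α : Type} [DecidableEq α]

/-- indicator -/
def ind (P : Prop) : ℝ := if P then 1 else 0

theorem ind_pos {P : Prop} (h : P) : ind P = 1 := if_pos h

theorem ind_neg {P : Prop} (h : ¬ P) : ind P = 0 := if_neg h

/-- expectation over the random subset of `Om` -/
def EX (p : ℝ) (W : Finset α) (F : Finset α → ℝ) : ℝ :=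
  ∑ E ∈ W.powerset, p ^ E.card * (1 - p) ^ (W.card - E.card) * F E

omit [DecidableEq α] in
theorem EX_one (p : ℝ) (W : Finset α) : EX p W (fun _ => 1) = 1 := by
  unfold EX
  simp only [mul_one]
  rw [Finset.sum_pow_mul_eq_add_pow]
  simp

omit [DecidableEq α] in
theorem EX_congr (p : ℝ) (W : Finset α) (F G : Finset α → ℝ) (h : ∀ E ⊆ W, F E = G E) :
    EX p W F = EX p W G := by
  unfold EX
  refine Finset.sum_congr rfl fun E hE => ?_
  rw [h E (Finset.mem_powerset.1 hE)]

omit [DecidableEq α] in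
theorem EX_mul (p : ℝ) (W : Finset α) (F : Finset α → ℝ) (c : ℝ) :
    EX p W (fun E => F E * c) = EX p W F * c := by
  unfold EX
  rw [Finset.sum_mul]
  refine Finset.sum_congr rfl fun E _ => ?_
  ring

omit [DecidableEq α] in
theorem EX_mul' (p : ℝ) (W : Finset α) (F : Finset α → ℝ) (c : ℝ) :
    EX p W (fun E => c * F E) = c * EX p W F := by
  unfold EX
  rw [Finset.mul_sum]
  refine Finset.sum_congr rfl fun E _ => ?_
  ring

theorem fub (p : ℝ) (S R : Finset α) (hd : Disjoint S R) (F : Finset α → ℝ) :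
    EX p (S ∪ R) F = EX p S (fun E1 => EX p R (fun E2 => F (E1 ∪ E2))) := by
  unfold EX
  simp only [Finset.mul_sum]
  rw [← Finset.sum_product']
  refine Finset.sum_nbij' (fun E => (E ∩ S, E ∩ R)) (fun x => x.1 ∪ x.2) ?_ ?_ ?_ ?_ ?_
  · intro E _
    simp only [Finset.mem_product, Finset.mem_powerset]
    exact ⟨Finset.inter_subset_right, Finset.inter_subset_right⟩
  · intro x hx
    simp only [Finset.mem_product, Finset.mem_powerset] at hx ⊢
    exact Finset.union_subset_union hx.1 hx.2
  · intro E hE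
    simp only [Finset.mem_powerset] at hE
    rw [← Finset.inter_union_distrib_left]
    exact Finset.inter_eq_left.2 hE
  · rintro ⟨E1, E2⟩ hx
    simp only [Finset.mem_product, Finset.mem_powerset] at hx
    obtain ⟨h1, h2⟩ := hx
    ext1
    · simp only
      rw [Finset.union_inter_distrib_right, Finset.inter_eq_left.2 h1]
      have : E2 ∩ S = ∅ := Finset.disjoint_iff_inter_eq_empty.1
        (Finset.disjoint_of_subset_left h2 hd.symm)
      rw [this, Finset.union_empty]
    · simp only
      rw [Finset.union_inter_distrib_right, Finset.inter_eq_left.2 h2]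
      have : E1 ∩ R = ∅ := Finset.disjoint_iff_inter_eq_empty.1
        (Finset.disjoint_of_subset_left h1 hd)
      rw [this, Finset.empty_union]
  · intro E hE
    simp only [Finset.mem_powerset] at hE
    simp only
    have h1 : E ∩ S ∪ E ∩ R = E := by
      rw [← Finset.inter_union_distrib_left]
      exact Finset.inter_eq_left.2 hE
    have h2 : E.card = (E ∩ S).card + (E ∩ R).card := by
      rw [← Finset.card_union_of_disjoint, h1]
      exact Finset.disjoint_of_subset_left Finset.inter_subset_right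
        (Finset.disjoint_of_subset_right Finset.inter_subset_right hd)
    have h3 : (S ∪ R).card = S.card + R.card := Finset.card_union_of_disjoint hd
    have h4 : (E ∩ S).card ≤ S.card := Finset.card_le_card Finset.inter_subset_right
    have h5 : (E ∩ R).card ≤ R.card := Finset.card_le_card Finset.inter_subset_right
    have h6 : (S ∪ R).card - E.card = (S.card - (E ∩ S).card) + (R.card - (E ∩ R).card) := by
      omega
    rw [h6, h1, pow_add]
    nth_rewrite 1 [h2]
    rw [pow_add]
    ring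

theorem indep (p : ℝ) (W S T : Finset α) (hd : Disjoint S T) (f g : Finset α → ℝ) :
    EX p W (fun E => f (E ∩ S) * g (E ∩ T)) =
      EX p W (fun E => f (E ∩ S)) * EX p W (fun E => g (E ∩ T)) := by
  have hW : W = (W ∩ S) ∪ (W \ S) := by
    rw [Finset.union_comm]
    exact (Finset.sdiff_union_inter W S).symm
  have hdj : Disjoint (W ∩ S) (W \ S) := (Finset.disjoint_sdiff_inter W S).symm
  have k1 : ∀ E1 ⊆ W ∩ S, ∀ E2 ⊆ W \ S, (E1 ∪ E2) ∩ S = E1 := by
    intro E1 h1 E2 h2
    ext x
    simp only [Finset.mem_inter, Finset.mem_union]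
    constructor
    · rintro ⟨h | h, hS⟩
      · exact h
      · exact absurd hS (Finset.mem_sdiff.1 (h2 h)).2
    · intro h
      exact ⟨Or.inl h, (Finset.mem_inter.1 (h1 h)).2⟩
  have k2 : ∀ E1 ⊆ W ∩ S, ∀ E2 ⊆ W \ S, (E1 ∪ E2) ∩ T = E2 ∩ T := by
    intro E1 h1 E2 h2
    ext x
    simp only [Finset.mem_inter, Finset.mem_union]
    constructor
    · rintro ⟨h | h, hT⟩
      · exact absurd hT (Finset.disjoint_left.1 hd (Finset.mem_inter.1 (h1 h)).2)
      · exact ⟨h, hT⟩
    · rintro ⟨h, hT⟩
      exact ⟨Or.inr h, hT⟩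
  have e1 : EX p W (fun E => f (E ∩ S) * g (E ∩ T)) =
      EX p (W ∩ S) f * EX p (W \ S) (fun E => g (E ∩ T)) := by
    rw [hW, fub p _ _ hdj, ← hW]
    rw [← EX_mul]
    refine EX_congr p _ _ _ fun E1 h1 => ?_
    rw [← EX_mul']
    refine EX_congr p _ _ _ fun E2 h2 => ?_
    rw [k1 E1 h1 E2 h2, k2 E1 h1 E2 h2]
  have e2 : EX p W (fun E => f (E ∩ S)) = EX p (W ∩ S) f := by
    rw [hW, fub p _ _ hdj, ← hW]
    refine EX_congr p _ _ _ fun E1 h1 => ?_
    rw [EX_congr p (W \ S) _ (fun _ => f E1 * 1) fun E2 h2 => by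
      rw [k1 E1 h1 E2 h2, mul_one]]
    rw [EX_mul', EX_one, mul_one]
  have e3 : EX p W (fun E => g (E ∩ T)) = EX p (W \ S) (fun E => g (E ∩ T)) := by
    rw [hW, fub p _ _ hdj, ← hW]
    rw [EX_congr p (W ∩ S) _ (fun _ => EX p (W \ S) (fun E => g (E ∩ T)) * 1) fun E1 h1 => by
      rw [mul_one]
      refine EX_congr p _ _ _ fun E2 h2 => ?_
      rw [k2 E1 h1 E2 h2]]
    rw [EX_mul', EX_one, mul_one]
  rw [e1, e2, e3]

theorem Pr_eq (p : ℝ) (n : ℕ) (Q : Finset (Fin n × Fin n) → Prop) :
    Pr p n Q = EX p (Om n) (fun E => ind (Q E)) := by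
  unfold Pr EX
  rw [Finset.sum_filter]
  refine Finset.sum_congr rfl fun E _ => ?_
  by_cases h : Q E
  · simp only [if_pos h, ind_pos h, mul_one]
  · simp only [if_neg h, ind_neg h, mul_zero]

theorem Pr_congr (p : ℝ) (n : ℕ) (Q R : Finset (Fin n × Fin n) → Prop)
    (h : ∀ E, Q E ↔ R E) : Pr p n Q = Pr p n R := by
  have : Q = R := by
    funext E
    exact propext (h E)
  rw [this]

theorem two (p : ℝ) (n : ℕ) (S T : Finset (Fin n × Fin n))
    (A B : Finset (Fin n × Fin n) → Prop) (hd : Disjoint S T) :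
    Pr p n (fun E => A (E ∩ S) ∧ B (E ∩ T)) =
      Pr p n (fun E => A (E ∩ S)) * Pr p n (fun E => B (E ∩ T)) := by
  rw [Pr_eq, Pr_eq, Pr_eq]
  rw [← indep p (Om n) S T hd (fun E => ind (A E)) (fun E => ind (B E))]
  refine EX_congr p _ _ _ fun E _ => ?_
  by_cases h1 : A (E ∩ S) <;> by_cases h2 : B (E ∩ T) <;> simp [h1, h2, ind]

theorem many (p : ℝ) (n : ℕ) (ι : Type) (s : Finset ι) (S : ι → Finset (Fin n × Fin n))
    (A : ι → Finset (Fin n × Fin n) → Prop)
    (hd : ∀ i ∈ s, ∀ j ∈ s, i ≠ j → Disjoint (S i) (S j)) :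
    Pr p n (fun E => ∀ i ∈ s, A i (E ∩ S i)) = ∏ i ∈ s, Pr p n (fun E => A i (E ∩ S i)) := by
  induction s using Finset.induction_on with
  | empty =>
    rw [Finset.prod_empty, Pr_eq]
    rw [EX_congr p _ _ (fun _ => 1) fun E _ => ind_pos (by simp)]
    exact EX_one p _
  | insert a s ha ih =>
    rw [Finset.prod_insert ha]
    rw [← ih fun i hi j hj hij => hd i (Finset.mem_insert_of_mem hi) j
      (Finset.mem_insert_of_mem hj) hij]
    have hdis : Disjoint (S a) (s.biUnion S) := by
      rw [Finset.disjoint_biUnion_right]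
      intro i hi
      exact hd a (Finset.mem_insert_self a s) i (Finset.mem_insert_of_mem hi)
        (fun h => ha (h ▸ hi))
    have h1 := two p n (S a) (s.biUnion S) (A a) (fun E => ∀ i ∈ s, A i (E ∩ S i)) hdis
    have h2 : ∀ E : Finset (Fin n × Fin n), ∀ i ∈ s, (E ∩ s.biUnion S) ∩ S i = E ∩ S i := by
      intro E i hi
      rw [Finset.inter_assoc, Finset.inter_eq_right.2 (Finset.subset_biUnion_of_mem S hi)]
    have h3 : Pr p n (fun E => ∀ i ∈ s, A i ((E ∩ s.biUnion S) ∩ S i)) =
        Pr p n (fun E => ∀ i ∈ s, A i (E ∩ S i)) := by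
      refine Pr_congr p n _ _ fun E => ?_
      constructor
      · intro h i hi
        have := h i hi
        rwa [h2 E i hi] at this
      · intro h i hi
        rw [h2 E i hi]
        exact h i hi
    rw [h3] at h1
    rw [← h1]
    refine Pr_congr p n _ _ fun E => ?_
    rw [Finset.forall_mem_insert]
    refine and_congr_right fun _ => ?_
    constructor
    · intro h i hi
      rw [h2 E i hi]
      exact h i hi
    · intro h i hi
      have := h i hi
      rwa [h2 E i hi] at this

theorem none (p : ℝ) (n : ℕ) (S : Finset (Fin n × Fin n)) (hS : S ⊆ Om n) :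
    Pr p n (fun E => E ∩ S = ∅) = (1 - p) ^ S.card := by
  rw [Pr_eq]
  have hW : Om n = S ∪ (Om n \ S) := (Finset.union_sdiff_of_subset hS).symm
  rw [hW, fub p _ _ Finset.disjoint_sdiff]
  have e1 : ∀ E1 ⊆ S, EX p (Om n \ S) (fun E2 => ind ((E1 ∪ E2) ∩ S = ∅)) =
      ind (E1 = ∅) := by
    intro E1 h1
    rw [EX_congr p (Om n \ S) _ (fun _ => ind (E1 = ∅) * 1) ?_]
    · rw [EX_mul', EX_one, mul_one]
    · intro E2 h2
      have : (E1 ∪ E2) ∩ S = E1 := by
        ext x
        simp only [Finset.mem_inter, Finset.mem_union]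
        constructor
        · rintro ⟨h | h, hS⟩
          · exact h
          · exact absurd hS (Finset.mem_sdiff.1 (h2 h)).2
        · intro h
          exact ⟨Or.inl h, h1 h⟩
      rw [this, mul_one]
  rw [EX_congr p S _ _ e1]
  unfold EX
  rw [Finset.sum_eq_single (∅ : Finset (Fin n × Fin n))]
  · simp [ind]
  · intro E _ hE
    simp only [ind_neg hE, mul_zero]
  · intro h
    exact absurd (Finset.empty_mem_powerset S) h

theorem main : S_PIND := by
  intro p n _ _
  exact ⟨fun S T A B hd => two p n S T A B hd, fun ι s S A hd => many p n ι s S A hd,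
    fun S hS => none p n S hS⟩

end

end Pool.Agent.W571.RD.Pind
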